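import Mathlib

/-!
# Relations given by affine bijections between residue classes
-/

set_option autoImplicit false

namespace Pool.Agent.Q24.CT

/-- the relation `u = x + t M`, `v = y + t N` -/
def Rel (x y M N : ℤ) (u v : ℤ) : Prop := ∃ t : ℤ, u = x + t * M ∧ v = y + t * N

lemma rel_self (x y M N : ℤ) : Rel x y M N x y := ⟨0, by simp, by simp⟩

/-- change of the base point -/
lemma rel_base {x y M N x' y' : ℤ} (h : Rel x y M N x' y') (u v : ℤ) :
    Rel x y M N u v ↔ Rel x' y' M N u v := by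
  obtain ⟨s, hs, hs'⟩ := h
  constructor
  · rintro ⟨t, h1, h2⟩
    exact ⟨t - s, by rw [h1, hs]; ring, by rw [h2, hs']; ring⟩
  · rintro ⟨t, h1, h2⟩
    exact ⟨t + s, by rw [h1, hs]; ring, by rw [h2, hs']; ring⟩

/-- the composite of two relations -/
lemma rel_comp {x y z M N M' N' : ℤ} (hM : 0 < M) (hN : 0 < N) (hM' : 0 < M') (hN' : 0 < N') :
    ∃ M'' N'' : ℤ, 0 < M'' ∧ 0 < N'' ∧ ∀ u w, (∃ v, Rel x y M N u v ∧ Rel y z M' N' v w) ↔
      Rel x z M'' N'' u w := by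
  set g : ℤ := (Int.gcd N M' : ℤ) with hg
  have hg0 : 0 < g := by
    rw [hg]; exact_mod_cast Int.gcd_pos_of_ne_zero_left _ hN.ne'
  obtain ⟨N1, hN1⟩ : g ∣ N := Int.gcd_dvd_left _ _
  obtain ⟨M1, hM1⟩ : g ∣ M' := Int.gcd_dvd_right _ _
  have hN1p : 0 < N1 := by
    by_contra hcon; push Not at hcon; nlinarith
  have hM1p : 0 < M1 := by
    by_contra hcon; push Not at hcon; nlinarith
  have hcop : IsCoprime N1 M1 := by
    rw [Int.isCoprime_iff_gcd_eq_one]
    have h1 : Int.gcd (g * N1) (g * M1) = g.natAbs * Int.gcd N1 M1 := Int.gcd_mul_left _ _ _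
    rw [← hN1, ← hM1] at h1
    have h2 : (Int.gcd N M' : ℤ).natAbs = Int.gcd N M' := Int.natAbs_natCast _
    rw [hg, h2] at h1
    have h3 : 0 < Int.gcd N M' := Int.gcd_pos_of_ne_zero_left _ hN.ne'
    exact Nat.eq_of_mul_eq_mul_left h3 (by rw [mul_one]; exact h1.symm)
  refine ⟨M * M1, N' * N1, by positivity, by positivity, ?_⟩
  intro u w
  constructor
  · rintro ⟨v, ⟨s, h1, h2⟩, ⟨s', h3, h4⟩⟩
    have h5 : s * N = s' * M' := by linarith
    have h6 : s * N1 = s' * M1 := by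
      have h7 : g * (s * N1) = g * (s' * M1) := by
        calc g * (s * N1) = s * (g * N1) := by ring
          _ = s * N := by rw [← hN1]
          _ = s' * M' := h5
          _ = s' * (g * M1) := by rw [← hM1]
          _ = g * (s' * M1) := by ring
      exact mul_left_cancel₀ hg0.ne' h7
    have h8 : M1 ∣ s := by
      have : M1 ∣ N1 * s := ⟨s', by rw [mul_comm N1 s, h6]; ring⟩
      exact hcop.symm.dvd_of_dvd_mul_left this
    obtain ⟨t, ht⟩ := h8
    have h9 : s' = t * N1 := by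
      have : M1 * s' = M1 * (t * N1) := by rw [mul_comm M1 s', ← h6, ht]; ring
      exact mul_left_cancel₀ hM1p.ne' this
    exact ⟨t, by rw [h1, ht]; ring, by rw [h4, h9]; ring⟩
  · rintro ⟨t, h1, h2⟩
    refine ⟨y + t * M1 * N, ⟨t * M1, by rw [h1]; ring, rfl⟩, ⟨t * N1, ?_, by rw [h2]; ring⟩⟩
    rw [hM1, hN1]; ring

/-- `n`-fold iteration of a relation -/
def It (R : ℤ → ℤ → Prop) : ℕ → ℤ → ℤ → Prop
  | 0 => fun u w => u = w
  | (n + 1) => fun u w => ∃ v, R u v ∧ It R n v w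

/-- long chains exist -/
lemma exists_chain {x0 x1 M N : ℤ} (hM : 0 < M) (hN : 0 < N) (δ : ℤ) (hδ : x1 = x0 + δ * M) :
    ∃ M1 : ℤ, 0 < M1 ∧ ∀ n : ℕ, ∃ ρ : ℤ, ∀ t : ℤ, ∃ w,
      It (Rel x0 x1 M N) n (x0 + (ρ + t * M1 ^ n) * M) w := by
  set g : ℤ := (Int.gcd N M : ℤ) with hg
  have hg0 : 0 < g := by
    rw [hg]; exact_mod_cast Int.gcd_pos_of_ne_zero_left _ hN.ne'
  obtain ⟨N1, hN1⟩ : g ∣ N := Int.gcd_dvd_left _ _
  obtain ⟨M1, hM1⟩ : g ∣ M := Int.gcd_dvd_right _ _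
  have hN1p : 0 < N1 := by
    by_contra hcon; push Not at hcon; nlinarith
  have hM1p : 0 < M1 := by
    by_contra hcon; push Not at hcon; nlinarith
  have hcop : IsCoprime N1 M1 := by
    rw [Int.isCoprime_iff_gcd_eq_one]
    have h1 : Int.gcd (g * N1) (g * M1) = g.natAbs * Int.gcd N1 M1 := Int.gcd_mul_left _ _ _
    rw [← hN1, ← hM1] at h1
    have h2 : (Int.gcd N M : ℤ).natAbs = Int.gcd N M := Int.natAbs_natCast _
    rw [hg, h2] at h1
    have h3 : 0 < Int.gcd N M := Int.gcd_pos_of_ne_zero_left _ hN.ne'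
    exact Nat.eq_of_mul_eq_mul_left h3 (by rw [mul_one]; exact h1.symm)
  refine ⟨M1, hM1p, ?_⟩
  intro n
  induction n with
  | zero => exact ⟨0, fun t => ⟨_, rfl⟩⟩
  | succ n ih =>
    obtain ⟨ρ, hρ⟩ := ih
    have hc : IsCoprime N1 (M1 ^ n) := hcop.pow_right
    obtain ⟨a, b, hab⟩ := hc
    -- `a N1 + b M1^n = 1`
    refine ⟨M1 * (a * (ρ - δ)), ?_⟩
    intro t
    obtain ⟨w, hw⟩ := hρ (-(b * (ρ - δ)) + t * N1)
    refine ⟨w, _, ⟨M1 * (a * (ρ - δ)) + t * M1 ^ (n + 1), rfl, rfl⟩, ?_⟩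
    convert hw using 1
    rw [hδ]
    have hkey : (M1 * (a * (ρ - δ)) + t * M1 ^ (n + 1)) * N =
        (N1 * (a * (ρ - δ) + t * M1 ^ n)) * M := by
      rw [hN1, hM1]; ring
    rw [hkey]
    have h2 : N1 * a = 1 - b * M1 ^ n := by linarith
    have h3 : N1 * (a * (ρ - δ) + t * M1 ^ n) = (1 - b * M1 ^ n) * (ρ - δ) + t * N1 * M1 ^ n := by
      rw [← h2]; ring
    rw [h3]; ring

/-- consecutive differences have the same sign -/
lemma sign_step {x0 x1 M N u v v' : ℤ} (hM : 0 < M) (hN : 0 < N) (h1 : Rel x0 x1 M N u v)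
    (h2 : Rel x0 x1 M N v v') : (u < v → v < v') ∧ (v < u → v' < v) := by
  obtain ⟨s, hs, hs'⟩ := h1
  obtain ⟨t, ht, ht'⟩ := h2
  have e1 : v - u = (t - s) * M := by rw [ht, hs]; ring
  have e2 : v' - v = (t - s) * N := by rw [ht', hs']; ring
  constructor
  · intro h
    have h3 : 0 < (t - s) * M := by linarith
    have h4 : 0 < t - s := by
      by_contra hcon; push Not at hcon; nlinarith
    nlinarith
  · intro h
    have h3 : (t - s) * M < 0 := by linarith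
    have h4 : t - s < 0 := by
      by_contra hcon; push Not at hcon; nlinarith
    nlinarith

lemma chain_lt {x0 x1 M N : ℤ} (hM : 0 < M) (hN : 0 < N) (n : ℕ) : ∀ u v w,
    Rel x0 x1 M N u v → It (Rel x0 x1 M N) n v w → (u < v → v ≤ w) ∧ (v < u → w ≤ v) := by
  induction n with
  | zero =>
    intro u v w _ h2
    have : v = w := h2
    subst this
    exact ⟨fun _ => le_refl _, fun _ => le_refl _⟩
  | succ n ih =>
    rintro u v w h1 ⟨v', h2, h3⟩
    obtain ⟨a, b⟩ := sign_step hM hN h1 h2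
    obtain ⟨c, d⟩ := ih v v' w h2 h3
    exact ⟨fun h => (a h).le.trans (c (a h)), fun h => (d (b h)).trans (b h).le⟩

/-- **The square lemma.** -/
lemma square {x0 x1 x2 M N : ℤ} (hM : 0 < M) (hN : 0 < N) (h12 : Rel x0 x1 M N x1 x2)
    {n : ℕ} (hn : 0 < n) (hper : ∀ u w, It (Rel x0 x1 M N) n u w → w = u) : x1 = x0 := by
  obtain ⟨δ, hδ, -⟩ := h12
  obtain ⟨M1, hM1, hch⟩ := exists_chain hM hN δ hδ
  obtain ⟨ρ, hρ⟩ := hch n
  have key : ∀ t : ℤ, x0 + (ρ + t * M1 ^ n) * M = x1 + (ρ + t * M1 ^ n) * N := by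
    intro t
    obtain ⟨w, hw⟩ := hρ t
    have hwu := hper _ _ hw
    obtain ⟨m, rfl⟩ : ∃ m, n = m + 1 := ⟨n - 1, by omega⟩
    obtain ⟨v, hv, hvw⟩ := hw
    obtain ⟨c, d⟩ := chain_lt hM hN m _ _ _ hv hvw
    have hv2 : v = x0 + (ρ + t * M1 ^ (m + 1)) * M := by
      rcases lt_trichotomy (x0 + (ρ + t * M1 ^ (m + 1)) * M) v with h | h | h
      · have := c h; rw [hwu] at this; linarith
      · exact h.symm
      · have := d h; rw [hwu] at this; linarith
    obtain ⟨s, hs, hs'⟩ := hv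
    have hs2 : s = ρ + t * M1 ^ (m + 1) := by
      have : (ρ + t * M1 ^ (m + 1)) * M = s * M := by linarith
      exact (mul_right_cancel₀ hM.ne' this).symm
    rw [← hv2, hs', hs2]
  have k0 := key 0
  have k1 := key 1
  have hpow : 0 < M1 ^ n := pow_pos hM1 n
  have hMN : M1 ^ n * (N - M) = 0 := by linarith
  have hMN' : N = M := by
    rcases mul_eq_zero.mp hMN with h | h
    · exact absurd h hpow.ne'
    · linarith
  rw [hMN'] at k0
  linarith

end Pool.Agent.Q24.CT
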