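import Mathlib
import Pool.Agent.Q24.CT.Aff

/-!
# Words of moves along two class transpositions
-/

set_option autoImplicit false

namespace Pool.Agent.Q24.CT

/-- data of a class transposition: it interchanges the classes `r false (m false)` and
`r true (m true)` -/
structure Dat where
  r : Bool → ℤ
  m : Bool → ℤ
  pos : ∀ b, 0 < m b
  disj : ∀ k l : ℤ, r false + k * m false ≠ r true + l * m true

/-- a move from class `b` to class `!b` -/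
def Dat.Mv (c : Dat) (b : Bool) (x y : ℤ) : Prop :=
  Rel (c.r b) (c.r !b) (c.m b) (c.m !b) x y

/-- `x` lies in the class `b` -/
def Dat.In (c : Dat) (b : Bool) (x : ℤ) : Prop := ∃ k : ℤ, x = c.r b + k * c.m b

lemma Dat.Mv.left {c : Dat} {b : Bool} {x y : ℤ} (h : c.Mv b x y) : c.In b x := by
  obtain ⟨t, h1, -⟩ := h; exact ⟨t, h1⟩

lemma Dat.Mv.right {c : Dat} {b : Bool} {x y : ℤ} (h : c.Mv b x y) : c.In (!b) y := by
  obtain ⟨t, -, h1⟩ := h; exact ⟨t, h1⟩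

/-- a prime power separating the two classes -/
lemma Dat.sep (c : Dat) : ∃ p d : ℕ, p.Prime ∧
    (∀ i j x y, c.In i x → c.In j y → ((p : ℤ) ^ d ∣ x - y)) ∧
    (∀ i j x y, c.In i x → c.In j y → ((p : ℤ) ^ (d + 1) ∣ x - y ↔ i = j)) := by
  classical
  set G : ℕ := Int.gcd (c.m false) (c.m true) with hG
  set D : ℤ := c.r true - c.r false with hD
  have hnd : ¬ (G : ℤ) ∣ D := by
    rintro ⟨q, hq⟩
    have hb := Int.gcd_eq_gcd_ab (c.m false) (c.m true)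
    rw [← hG] at hb
    apply c.disj (Int.gcdA (c.m false) (c.m true) * q) (-(Int.gcdB (c.m false) (c.m true) * q))
    have : c.r true = c.r false + G * q := by rw [← hq, hD]; ring
    rw [this, hb]; ring
  have hex : ∃ p k : ℕ, p.Prime ∧ p ^ k ∣ G ∧ ¬ p ^ k ∣ D.natAbs := by
    by_contra hcon
    push Not at hcon
    apply hnd
    have h1 : G ∣ D.natAbs := by
      rw [Nat.dvd_iff_prime_pow_dvd_dvd]
      intro p k hp hk
      exact hcon p k hp hk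
    exact Int.natCast_dvd.mpr h1
  obtain ⟨p, k, hp, hk⟩ := hex
  have hex2 : ∃ k : ℕ, p ^ k ∣ G ∧ ¬ p ^ k ∣ D.natAbs := ⟨k, hk⟩
  set e := Nat.find hex2 with he
  obtain ⟨he1, he2⟩ := Nat.find_spec hex2
  rw [← he] at he1 he2
  have he0 : e ≠ 0 := by
    intro h; rw [h, pow_zero] at he2; exact he2 (one_dvd _)
  obtain ⟨d, hd⟩ : ∃ d, e = d + 1 := ⟨e - 1, by omega⟩
  have hdG : p ^ d ∣ G := (pow_dvd_pow p (by omega)).trans he1
  have hdD : p ^ d ∣ D.natAbs := by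
    by_contra hcon
    have := Nat.find_min' hex2 ⟨hdG, hcon⟩
    omega
  rw [hd] at he1 he2
  have hdD' : (p : ℤ) ^ d ∣ D := by
    have := Int.natCast_dvd.mpr hdD
    push_cast at this; exact this
  have heD' : ¬ (p : ℤ) ^ (d + 1) ∣ D := by
    intro h
    apply he2
    apply Int.natCast_dvd.mp
    push_cast; exact h
  have hm : ∀ b, (p : ℤ) ^ (d + 1) ∣ c.m b := by
    intro b
    have h1 : ((p ^ (d + 1) : ℕ) : ℤ) ∣ (G : ℤ) := Int.natCast_dvd_natCast.mpr he1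
    push_cast at h1
    cases b
    · exact h1.trans (Int.gcd_dvd_left _ _)
    · exact h1.trans (Int.gcd_dvd_right _ _)
  -- differences
  have hdiff : ∀ i j x y, c.In i x → c.In j y → (p : ℤ) ^ (d + 1) ∣ (x - y) - (c.r i - c.r j) := by
    rintro i j x y ⟨k, rfl⟩ ⟨l, rfl⟩
    have : c.r i + k * c.m i - (c.r j + l * c.m j) - (c.r i - c.r j) = k * c.m i - l * c.m j := by
      ring
    rw [this]
    exact dvd_sub ((hm i).mul_left _) ((hm j).mul_left _)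
  have hrd : ∀ i j, (p : ℤ) ^ d ∣ c.r i - c.r j := by
    intro i j
    cases i <;> cases j
    · simp
    · rw [← neg_sub, dvd_neg]; exact hdD'
    · exact hdD'
    · simp
  have hre : ∀ i j, (p : ℤ) ^ (d + 1) ∣ c.r i - c.r j ↔ i = j := by
    intro i j
    cases i <;> cases j
    · simp
    · simp only [Bool.false_eq_true, iff_false]
      rw [← neg_sub, dvd_neg]; exact heD'
    · simp only [Bool.true_eq_false, iff_false]
      exact heD'
    · simp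
  refine ⟨p, d, hp, ?_, ?_⟩
  · intro i j x y hx hy
    have h1 : (p : ℤ) ^ d ∣ (x - y) - (c.r i - c.r j) :=
      (pow_dvd_pow _ (Nat.le_succ d)).trans (hdiff i j x y hx hy)
    exact (dvd_sub_left (hrd i j)).mp h1
  · intro i j x y hx hy
    rw [← hre i j]
    constructor
    · intro h
      have := dvd_sub h (hdiff i j x y hx hy)
      simpa using this
    · intro h
      have := dvd_add (hdiff i j x y hx hy) h
      simpa using this

/-- **Trichotomy** for an affine bijection between classes: what it does to differences. -/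
lemma trich {p d : ℕ} (hp : p.Prime) {n0 n1 : ℤ} (h0 : 0 < n0) (h1 : 0 < n1) :
    (∀ X Y : ℤ, n0 * Y = n1 * X → ((p : ℤ) ^ (d + 1) ∣ X ↔ (p : ℤ) ^ (d + 1) ∣ Y)) ∨
    (∀ X Y : ℤ, n0 * Y = n1 * X → (p : ℤ) ^ d ∣ Y → (p : ℤ) ^ (d + 1) ∣ X) ∨
    (∀ X Y : ℤ, n0 * Y = n1 * X → (p : ℤ) ^ d ∣ X → (p : ℤ) ^ (d + 1) ∣ Y) := by
  have hpi : Prime (p : ℤ) := Nat.prime_iff_prime_int.mp hp
  have hp0 : (p : ℤ) ≠ 0 := hpi.ne_zero
  have hfac : ∀ n : ℤ, 0 < n → ∃ (e : ℕ) (c : ℤ), n = (p : ℤ) ^ e * c ∧ ¬ (p : ℤ) ∣ c := by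
    intro n hn
    have hfin : FiniteMultiplicity (p : ℤ) n :=
      Int.finiteMultiplicity_iff.mpr ⟨by rw [Int.natAbs_natCast]; exact hp.ne_one, hn.ne'⟩
    obtain ⟨c, hc, hnc⟩ := hfin.exists_eq_pow_mul_and_not_dvd
    exact ⟨_, c, hc, hnc⟩
  obtain ⟨e0, c0, hn0, hc0⟩ := hfac n0 h0
  obtain ⟨e1, c1, hn1, hc1⟩ := hfac n1 h1
  have hcop : ∀ c : ℤ, ¬ (p : ℤ) ∣ c → ∀ k : ℕ, IsCoprime ((p : ℤ) ^ k) c := by
    intro c hc k
    exact ((Prime.coprime_iff_not_dvd hpi).mpr hc).pow_left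
  rcases lt_trichotomy e0 e1 with hlt | heq | hgt
  · right; right
    intro X Y hXY hX
    obtain ⟨f, rfl⟩ : ∃ f, e1 = e0 + 1 + f := ⟨e1 - e0 - 1, by omega⟩
    have h2 : c0 * Y = (p : ℤ) ^ (1 + f) * c1 * X := by
      have : (p : ℤ) ^ e0 * (c0 * Y) = (p : ℤ) ^ e0 * ((p : ℤ) ^ (1 + f) * c1 * X) := by
        rw [hn0, hn1] at hXY
        calc (p : ℤ) ^ e0 * (c0 * Y) = (p : ℤ) ^ e0 * c0 * Y := by ring
          _ = (p : ℤ) ^ (e0 + 1 + f) * c1 * X := hXY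
          _ = _ := by ring
      exact mul_left_cancel₀ (pow_ne_zero _ hp0) this
    have h3 : (p : ℤ) ^ (d + 1) ∣ c0 * Y := by
      obtain ⟨X', rfl⟩ := hX
      rw [h2]
      exact ⟨(p : ℤ) ^ f * c1 * X', by ring⟩
    exact (hcop c0 hc0 (d + 1)).dvd_of_dvd_mul_left h3
  · left
    intro X Y hXY
    subst heq
    have h2 : c0 * Y = c1 * X := by
      have : (p : ℤ) ^ e0 * (c0 * Y) = (p : ℤ) ^ e0 * (c1 * X) := by
        rw [hn0, hn1] at hXY
        calc (p : ℤ) ^ e0 * (c0 * Y) = (p : ℤ) ^ e0 * c0 * Y := by ring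
          _ = (p : ℤ) ^ e0 * c1 * X := hXY
          _ = _ := by ring
      exact mul_left_cancel₀ (pow_ne_zero _ hp0) this
    constructor
    · intro h
      apply (hcop c0 hc0 (d + 1)).dvd_of_dvd_mul_left
      rw [h2]; exact h.mul_left _
    · intro h
      apply (hcop c1 hc1 (d + 1)).dvd_of_dvd_mul_left
      rw [← h2]; exact h.mul_left _
  · right; left
    intro X Y hXY hY
    obtain ⟨f, rfl⟩ : ∃ f, e0 = e1 + 1 + f := ⟨e0 - e1 - 1, by omega⟩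
    have h2 : c1 * X = (p : ℤ) ^ (1 + f) * c0 * Y := by
      have : (p : ℤ) ^ e1 * (c1 * X) = (p : ℤ) ^ e1 * ((p : ℤ) ^ (1 + f) * c0 * Y) := by
        rw [hn0, hn1] at hXY
        calc (p : ℤ) ^ e1 * (c1 * X) = (p : ℤ) ^ e1 * c1 * X := by ring
          _ = (p : ℤ) ^ (e1 + 1 + f) * c0 * Y := hXY.symm
          _ = _ := by ring
      exact mul_left_cancel₀ (pow_ne_zero _ hp0) this
    have h3 : (p : ℤ) ^ (d + 1) ∣ c1 * X := by
      obtain ⟨Y', rfl⟩ := hY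
      rw [h2]
      exact ⟨(p : ℤ) ^ f * c0 * Y', by ring⟩
    exact (hcop c1 hc1 (d + 1)).dvd_of_dvd_mul_left h3

/-- oriented transition -/
def tr (b s t : Bool) : Bool × Bool := if b then (t, s) else (s, t)

/-- the condition on a list of transitions -/
def cond3 (a b c : Bool × Bool) : Bool :=
  ((a.1 == b.1) == (a.2 == b.2) && (a.1 == c.1) == (a.2 == c.2) && (b.1 == c.1) == (b.2 == c.2)) ||
  (a.1 == b.1 && a.1 == c.1) || (a.2 == b.2 && a.2 == c.2)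

/-- moves of `c'` between points of the classes of `c` -/
lemma cond3_of (c c' : Dat) {b₁ b₂ b₃ s₁ s₂ s₃ t₁ t₂ t₃ : Bool} {x₁ x₂ x₃ y₁ y₂ y₃ : ℤ}
    (h₁ : c'.Mv b₁ x₁ y₁) (h₂ : c'.Mv b₂ x₂ y₂) (h₃ : c'.Mv b₃ x₃ y₃)
    (hx₁ : c.In s₁ x₁) (hx₂ : c.In s₂ x₂) (hx₃ : c.In s₃ x₃)
    (hy₁ : c.In t₁ y₁) (hy₂ : c.In t₂ y₂) (hy₃ : c.In t₃ y₃) :
    cond3 (tr b₁ s₁ t₁) (tr b₂ s₂ t₂) (tr b₃ s₃ t₃) = true := by
  obtain ⟨p, d, hp, hd, he⟩ := c.sep
  -- oriented points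
  have orient : ∀ b s t x y, c'.Mv b x y → c.In s x → c.In t y →
      ∃ X Y, c.In (tr b s t).1 X ∧ c.In (tr b s t).2 Y ∧ c'.Mv false X Y := by
    intro b s t x y h hx hy
    cases b
    · exact ⟨x, y, hx, hy, h⟩
    · refine ⟨y, x, hy, hx, ?_⟩
      obtain ⟨k, h1, h2⟩ := h
      exact ⟨k, h2, h1⟩
  obtain ⟨X₁, Y₁, hX₁, hY₁, m₁⟩ := orient _ _ _ _ _ h₁ hx₁ hy₁
  obtain ⟨X₂, Y₂, hX₂, hY₂, m₂⟩ := orient _ _ _ _ _ h₂ hx₂ hy₂
  obtain ⟨X₃, Y₃, hX₃, hY₃, m₃⟩ := orient _ _ _ _ _ h₃ hx₃ hy₃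
  have dif : ∀ X Y X' Y', c'.Mv false X Y → c'.Mv false X' Y' →
      c'.m false * (Y - Y') = c'.m true * (X - X') := by
    rintro X Y X' Y' ⟨k, rfl, rfl⟩ ⟨l, rfl, rfl⟩
    simp only [Bool.not_false]
    ring
  set a := tr b₁ s₁ t₁
  set b := tr b₂ s₂ t₂
  set e := tr b₃ s₃ t₃
  rcases trich (d := d) hp (c'.pos false) (c'.pos true) with hT | hT | hT
  · have key : ∀ (i i' j j' : Bool) (X Y X' Y' : ℤ), c'.Mv false X Y → c'.Mv false X' Y' →
        c.In i X → c.In i' Y → c.In j X' → c.In j' Y' → (i = j ↔ i' = j') := by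
      intro i i' j j' X Y X' Y' m m' h1 h2 h3 h4
      rw [← he i j X X' h1 h3, ← he i' j' Y Y' h2 h4]
      exact hT _ _ (dif _ _ _ _ m m')
    have k12 := key _ _ _ _ _ _ _ _ m₁ m₂ hX₁ hY₁ hX₂ hY₂
    have k13 := key _ _ _ _ _ _ _ _ m₁ m₃ hX₁ hY₁ hX₃ hY₃
    have k23 := key _ _ _ _ _ _ _ _ m₂ m₃ hX₂ hY₂ hX₃ hY₃
    clear_value a b e
    obtain ⟨a1, a2⟩ := a
    obtain ⟨b1, b2⟩ := b
    obtain ⟨e1, e2⟩ := e
    simp only at k12 k13 k23
    unfold cond3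
    revert k12 k13 k23
    clear * -
    revert a1 a2 b1 b2 e1 e2
    decide
  · have key : ∀ (i i' j j' : Bool) (X Y X' Y' : ℤ), c'.Mv false X Y → c'.Mv false X' Y' →
        c.In i X → c.In i' Y → c.In j X' → c.In j' Y' → i = j := by
      intro i i' j j' X Y X' Y' m m' h1 h2 h3 h4
      rw [← he i j X X' h1 h3]
      exact hT _ _ (dif _ _ _ _ m m') (hd i' j' Y Y' h2 h4)
    have k12 := key _ _ _ _ _ _ _ _ m₁ m₂ hX₁ hY₁ hX₂ hY₂
    have k13 := key _ _ _ _ _ _ _ _ m₁ m₃ hX₁ hY₁ hX₃ hY₃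
    unfold cond3
    simp [← k12, ← k13]
  · have key : ∀ (i i' j j' : Bool) (X Y X' Y' : ℤ), c'.Mv false X Y → c'.Mv false X' Y' →
        c.In i X → c.In i' Y → c.In j X' → c.In j' Y' → i' = j' := by
      intro i i' j j' X Y X' Y' m m' h1 h2 h3 h4
      rw [← he i' j' Y Y' h2 h4]
      exact hT _ _ (dif _ _ _ _ m m') (hd i j X X' h1 h3)
    have k12 := key _ _ _ _ _ _ _ _ m₁ m₂ hX₁ hY₁ hX₂ hY₂
    have k13 := key _ _ _ _ _ _ _ _ m₁ m₃ hX₁ hY₁ hX₃ hY₃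
    unfold cond3
    simp [← k12, ← k13]

/-- squares in words of eight letters -/
def sqr (b0 b1 b2 b3 b4 b5 b6 b7 : Bool) : Bool :=
  (b0 == b2 && b1 == b3) || (b1 == b3 && b2 == b4) || (b2 == b4 && b3 == b5) ||
  (b3 == b5 && b4 == b6) || (b4 == b6 && b5 == b7) ||
  (b0 == b4 && b1 == b5 && b2 == b6 && b3 == b7)

lemma comb : ∀ b0 b1 b2 b3 b4 b5 b6 b7 : Bool,
    cond3 (tr b1 (!b0) b2) (tr b3 (!b2) b4) (tr b5 (!b4) b6) = true →
    cond3 (tr b2 (!b1) b3) (tr b4 (!b3) b5) (tr b6 (!b5) b7) = true →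
    sqr b0 b1 b2 b3 b4 b5 b6 b7 = true := by
  decide

end Pool.Agent.Q24.CT
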