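import Mathlib
import Pool.Agent.Q24.CT.Win

/-!
# Products of two class transpositions of finite order
-/

set_option autoImplicit false

namespace Pool.Agent.Q24.CT

/-- a relation is an affine bijection between residue classes, containing the pair `(x, y)` -/
def Exact (R : ℤ → ℤ → Prop) (x y : ℤ) : Prop :=
  ∃ M N : ℤ, 0 < M ∧ 0 < N ∧ ∀ u w, R u w ↔ Rel x y M N u w

lemma Dat.Mv.exact {c : Dat} {b : Bool} {x y : ℤ} (h : c.Mv b x y) : Exact (c.Mv b) x y :=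
  ⟨c.m b, c.m !b, c.pos _, c.pos _, fun u w => rel_base h u w⟩

lemma Exact.comp {R R' : ℤ → ℤ → Prop} {x y z : ℤ} (h : Exact R x y) (h' : Exact R' y z) :
    Exact (fun u w => ∃ v, R u v ∧ R' v w) x z := by
  obtain ⟨M, N, hM, hN, hR⟩ := h
  obtain ⟨M', N', hM', hN', hR'⟩ := h'
  obtain ⟨M'', N'', hM'', hN'', hc⟩ := rel_comp (x := x) (y := y) (z := z) hM hN hM' hN'
  refine ⟨M'', N'', hM'', hN'', fun u w => ?_⟩
  rw [← hc u w]
  constructor
  · rintro ⟨v, h1, h2⟩; exact ⟨v, (hR _ _).mp h1, (hR' _ _).mp h2⟩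
  · rintro ⟨v, h1, h2⟩; exact ⟨v, (hR _ _).mpr h1, (hR' _ _).mpr h2⟩

lemma It.fun {R : ℤ → ℤ → Prop} {P : ℤ → ℤ} (hP : ∀ u w, R u w → P u = w) (n : ℕ) :
    ∀ u w, It R n u w → P^[n] u = w := by
  induction n with
  | zero => intro u w h; exact h
  | succ n ih =>
    rintro u w ⟨v, h1, h2⟩
    rw [Function.iterate_succ_apply, hP u v h1]
    exact ih v w h2

lemma It.mono {R R' : ℤ → ℤ → Prop} (h : ∀ u w, R u w → R' u w) (n : ℕ) :
    ∀ u w, It R n u w → It R' n u w := by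
  induction n with
  | zero => intro u w h; exact h
  | succ n ih =>
    rintro u w ⟨v, h1, h2⟩
    exact ⟨v, h _ _ h1, ih _ _ h2⟩

lemma Exact.square {R : ℤ → ℤ → Prop} {x0 x1 x2 : ℤ} (h : Exact R x0 x1) (h12 : R x1 x2)
    {P : ℤ → ℤ} (hP : ∀ u w, R u w → P u = w) {n : ℕ} (hn : 0 < n) (hper : ∀ u, P^[n] u = u) :
    x1 = x0 := by
  obtain ⟨M, N, hM, hN, hR⟩ := h
  apply CT.square hM hN ((hR _ _).mp h12) hn
  intro u w huw
  have h1 : It R n u w := It.mono (fun u w h => (hR u w).mpr h) n u w huw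
  rw [← It.fun hP n u w h1, hper]

/-- the function `a` is the class transposition with data `c` -/
structure Real (c : Dat) (a : ℤ → ℤ) : Prop where
  mv : ∀ b x y, c.Mv b x y → a x = y
  cases : ∀ x, a x = x ∨ ∃ b, c.Mv b x (a x)

lemma Dat.Mv.symm {c : Dat} {b : Bool} {x y : ℤ} (h : c.Mv b x y) : c.Mv (!b) y x := by
  obtain ⟨t, h1, h2⟩ := h
  exact ⟨t, h2, by rw [Bool.not_not]; exact h1⟩

lemma Real.inv {c : Dat} {a : ℤ → ℤ} (h : Real c a) (x : ℤ) : a (a x) = x := by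
  rcases h.cases x with h1 | ⟨b, hb⟩
  · rw [h1, h1]
  · exact h.mv _ _ _ hb.symm

section

variable {c c' : Dat} {a b : ℤ → ℤ} {n : ℕ}

lemma sq2 (ha : Real c a) (hb : Real c' b) (hn : 0 < n) (hper : ∀ u, (fun x => b (a x))^[n] u = u)
    {β β' : Bool} {x0 x1 x2 x3 x4 : ℤ} (h0 : c.Mv β x0 x1) (h1 : c'.Mv β' x1 x2)
    (h2 : c.Mv β x2 x3) (h3 : c'.Mv β' x3 x4) : x2 = x0 := by
  refine (h0.exact.comp h1.exact).square (x2 := x4) ⟨x3, h2, h3⟩ (P := fun x => b (a x)) ?_ hn hper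
  rintro u w ⟨v, huv, hvw⟩
  rw [ha.mv _ _ _ huv, hb.mv _ _ _ hvw]

lemma sq4 (ha : Real c a) (hb : Real c' b) (hn : 0 < n) (hper : ∀ u, (fun x => b (a x))^[n] u = u)
    {β0 β1 β2 β3 : Bool} {x0 x1 x2 x3 x4 x5 x6 x7 x8 : ℤ}
    (h0 : c.Mv β0 x0 x1) (h1 : c'.Mv β1 x1 x2) (h2 : c.Mv β2 x2 x3) (h3 : c'.Mv β3 x3 x4)
    (h4 : c.Mv β0 x4 x5) (h5 : c'.Mv β1 x5 x6) (h6 : c.Mv β2 x6 x7) (h7 : c'.Mv β3 x7 x8) :
    x4 = x0 := by
  refine ((h0.exact.comp h1.exact).comp (h2.exact.comp h3.exact)).square (x2 := x8)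
    ⟨x6, ⟨x5, h4, h5⟩, ⟨x7, h6, h7⟩⟩ (P := (fun x => b (a x))^[2]) ?_ hn ?_
  · rintro u w ⟨v, ⟨v1, h1, h2⟩, ⟨v2, h3, h4⟩⟩
    simp only [Function.iterate_succ, Function.iterate_zero, Function.comp_apply, id_eq]
    rw [ha.mv _ _ _ h1, hb.mv _ _ _ h2, ha.mv _ _ _ h3, hb.mv _ _ _ h4]
  · intro u
    rw [← Function.iterate_mul, mul_comm, Function.iterate_mul]
    have : (fun x => b (a x))^[n] = id := funext hper
    rw [this]; rfl

/-- alternating sequence -/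
def S (a b : ℤ → ℤ) (y : ℤ) : ℕ → ℤ
  | 0 => y
  | k + 1 => if k % 2 = 0 then a (S a b y k) else b (S a b y k)

lemma S_even (a b : ℤ → ℤ) (y : ℤ) {k : ℕ} (h : k % 2 = 0) : S a b y (k + 1) = a (S a b y k) := by
  rw [S, if_pos h]

lemma S_odd (a b : ℤ → ℤ) (y : ℤ) {k : ℕ} (h : k % 2 = 1) : S a b y (k + 1) = b (S a b y k) := by
  rw [S, if_neg (by omega)]

lemma S_add (a b : ℤ → ℤ) (y : ℤ) (k : ℕ) : ∀ m : ℕ,
    S a b y (k + m) = if k % 2 = 0 then S a b (S a b y k) m else S b a (S a b y k) m := by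
  intro m
  induction m with
  | zero => simp [S]
  | succ m ih =>
    rcases Nat.mod_two_eq_zero_or_one k with hk | hk
    · rw [if_pos hk] at ih ⊢
      rw [← add_assoc]
      rcases Nat.mod_two_eq_zero_or_one m with hm | hm
      · rw [S_even _ _ _ (k := k + m) (by omega), ih, S_even _ _ _ (k := m) hm]
      · rw [S_odd _ _ _ (k := k + m) (by omega), ih, S_odd _ _ _ (k := m) hm]
    · have hk' : ¬ k % 2 = 0 := by omega
      rw [if_neg hk'] at ih ⊢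
      rw [← add_assoc]
      rcases Nat.mod_two_eq_zero_or_one m with hm | hm
      · rw [S_odd a b y (k := k + m) (by omega), ih, S_even b a _ (k := m) hm]
      · rw [S_even a b y (k := k + m) (by omega), ih, S_odd b a _ (k := m) hm]

/-- **Windows of eight moves.** -/
lemma window (ha : Real c a) (hb : Real c' b) (hn : 0 < n)
    (hper : ∀ u, (fun x => b (a x))^[n] u = u) (hper' : ∀ u, (fun x => a (b x))^[n] u = u)
    (y : ℤ) :
    (∃ k < 8, S a b y (k + 1) = S a b y k) ∨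
      ∃ i l, 1 ≤ l ∧ l ≤ 2 ∧ S a b y (i + 2 * l) = S a b y i := by
  by_contra hcon
  push Not at hcon
  obtain ⟨hnt, hsq⟩ := hcon
  set x : ℕ → ℤ := S a b y with hx
  have he : ∀ k < 8, k % 2 = 0 → ∃ β, c.Mv β (x k) (x (k + 1)) := by
    intro k hk hk2
    have h1 : x (k + 1) = a (x k) := S_even _ _ _ hk2
    rcases ha.cases (x k) with h2 | h2
    · exact absurd (h1.trans h2) (hnt k hk)
    · rw [h1]; exact h2
  have ho : ∀ k < 8, k % 2 = 1 → ∃ β, c'.Mv β (x k) (x (k + 1)) := by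
    intro k hk hk2
    have h1 : x (k + 1) = b (x k) := S_odd _ _ _ hk2
    rcases hb.cases (x k) with h2 | h2
    · exact absurd (h1.trans h2) (hnt k hk)
    · rw [h1]; exact h2
  obtain ⟨b0, m0⟩ := he 0 (by norm_num) rfl
  obtain ⟨b1, m1⟩ := ho 1 (by norm_num) rfl
  obtain ⟨b2, m2⟩ := he 2 (by norm_num) rfl
  obtain ⟨b3, m3⟩ := ho 3 (by norm_num) rfl
  obtain ⟨b4, m4⟩ := he 4 (by norm_num) rfl
  obtain ⟨b5, m5⟩ := ho 5 (by norm_num) rfl
  obtain ⟨b6, m6⟩ := he 6 (by norm_num) rfl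
  obtain ⟨b7, m7⟩ := ho 7 (by norm_num) rfl
  simp only [Nat.reduceAdd] at m0 m1 m2 m3 m4 m5 m6 m7
  have c1 := cond3_of c c' m1 m3 m5 m0.right m2.right m4.right m2.left m4.left m6.left
  have c2 := cond3_of c' c m2 m4 m6 m1.right m3.right m5.right m3.left m5.left m7.left
  have hs := comb b0 b1 b2 b3 b4 b5 b6 b7 c1 c2
  unfold sqr at hs
  simp only [Bool.or_eq_true, Bool.and_eq_true, beq_iff_eq] at hs
  rcases hs with ((((⟨h, h'⟩ | ⟨h, h'⟩) | ⟨h, h'⟩) | ⟨h, h'⟩) | ⟨h, h'⟩) | ⟨⟨⟨h, h'⟩, h''⟩, h'''⟩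
  · subst h h'
    exact hsq 0 1 le_rfl (by norm_num) (sq2 ha hb hn hper m0 m1 m2 m3)
  · subst h h'
    exact hsq 1 1 le_rfl (by norm_num) (sq2 hb ha hn hper' m1 m2 m3 m4)
  · subst h h'
    exact hsq 2 1 le_rfl (by norm_num) (sq2 ha hb hn hper m2 m3 m4 m5)
  · subst h h'
    exact hsq 3 1 le_rfl (by norm_num) (sq2 hb ha hn hper' m3 m4 m5 m6)
  · subst h h'
    exact hsq 4 1 le_rfl (by norm_num) (sq2 ha hb hn hper m4 m5 m6 m7)
  · subst h h' h'' h'''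
    exact hsq 0 2 (by norm_num) le_rfl (sq4 ha hb hn hper m0 m1 m2 m3 m4 m5 m6 m7)

/-- reflection at a trivial move -/
lemma reflect (ha : ∀ x, a (a x) = x) (hb : ∀ x, b (b x) = x) (y : ℤ) {k : ℕ}
    (hk : S a b y (k + 1) = S a b y k) : ∀ j ≤ k, S a b y (k + 1 + j) = S a b y (k - j) := by
  intro j
  induction j with
  | zero => intro _; simpa using hk
  | succ j ih =>
    intro hj
    have h1 := ih (by omega)
    obtain ⟨i, hi⟩ : ∃ i, k - j = i + 1 := ⟨k - j - 1, by omega⟩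
    have hi' : k - (j + 1) = i := by omega
    rw [← add_assoc, hi']
    rcases Nat.mod_two_eq_zero_or_one i with hm | hm
    · rw [S_even _ _ _ (k := k + 1 + j) (by omega), h1, hi, S_even _ _ _ hm, ha]
    · rw [S_odd _ _ _ (k := k + 1 + j) (by omega), h1, hi, S_odd _ _ _ hm, hb]

/-- periodicity of the alternating sequence -/
lemma exists_period (ha : Real c a) (hb : Real c' b) (hn : 0 < n)
    (hper : ∀ u, (fun x => b (a x))^[n] u = u) (hper' : ∀ u, (fun x => a (b x))^[n] u = u)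
    (y : ℤ) : ∃ i l, 1 ≤ l ∧ l ≤ 8 ∧ S a b y (i + 2 * l) = S a b y i := by
  rcases window ha hb hn hper hper' y with ⟨k1, hk1, h1⟩ | ⟨i, l, hl, hl2, h⟩
  swap
  · exact ⟨i, l, hl, by omega, h⟩
  -- the window starting at `k1 + 1`
  have h2 : (∃ k < 8, S a b y (k1 + 1 + (k + 1)) = S a b y (k1 + 1 + k)) ∨
      ∃ i l, 1 ≤ l ∧ l ≤ 2 ∧ S a b y (k1 + 1 + (i + 2 * l)) = S a b y (k1 + 1 + i) := by
    simp only [S_add a b y (k1 + 1)]
    rcases Nat.mod_two_eq_zero_or_one (k1 + 1) with hm | hm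
    · simp only [if_pos hm]
      exact window ha hb hn hper hper' _
    · simp only [if_neg (show ¬ (k1 + 1) % 2 = 0 by omega)]
      exact window hb ha hn hper' hper _
  rcases h2 with ⟨k, hk, h2⟩ | ⟨i, l, hl, hl2, h2⟩
  · set k2 := k1 + 1 + k with hk2
    have h3 : S a b y (k2 + 1) = S a b y k2 := by
      rw [← h2]; congr 1
    have h4 := reflect ha.inv hb.inv y h3 (k2 - k1) (by omega)
    refine ⟨k1 + 1, k2 - k1, by omega, by omega, ?_⟩
    rw [h1]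
    have e1 : k1 + 1 + 2 * (k2 - k1) = k2 + 1 + (k2 - k1) := by omega
    have e2 : k2 - (k2 - k1) = k1 := by omega
    rw [e1, h4, e2]
  · exact ⟨k1 + 1 + i, l, hl, by omega, by rw [← h2]; congr 1; ring⟩

end

lemma S_perm (σ τ : Equiv.Perm ℤ) (y : ℤ) (j : ℕ) :
    S τ σ y (2 * j) = ((σ * τ) ^ j) y := by
  induction j with
  | zero => simp [S]
  | succ j ih =>
    rw [show 2 * (j + 1) = 2 * j + 1 + 1 by ring, S_odd _ _ _ (by omega), S_even _ _ _ (by omega),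
      ih, pow_succ', Equiv.Perm.mul_apply, Equiv.Perm.mul_apply]

/-- **Orbits have at most eight elements.** -/
theorem orbit {c c' : Dat} {σ τ : Equiv.Perm ℤ} (hτ : Real c τ) (hσ : Real c' σ)
    (hfin : IsOfFinOrder (σ * τ)) (y : ℤ) : ∃ l, 1 ≤ l ∧ l ≤ 8 ∧ ((σ * τ) ^ l) y = y := by
  obtain ⟨n, hn, hpow⟩ := isOfFinOrder_iff_pow_eq_one.mp hfin
  have hper : ∀ u, (fun x => σ (τ x))^[n] u = u := by
    intro u
    have h1 : (⇑(σ * τ))^[n] u = u := by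
      rw [Equiv.Perm.iterate_eq_pow, hpow]; rfl
    exact h1
  have hττ : ∀ x, τ (τ x) = x := hτ.inv
  have hpow' : (τ * σ) ^ n = 1 := by
    have h1 : τ * σ = τ * (σ * τ) * τ⁻¹ := by group
    rw [h1, conj_pow, hpow]; group
  have hper' : ∀ u, (fun x => τ (σ x))^[n] u = u := by
    intro u
    have h1 : (⇑(τ * σ))^[n] u = u := by
      rw [Equiv.Perm.iterate_eq_pow, hpow']; rfl
    exact h1
  obtain ⟨i, l, hl, hl8, h⟩ := exists_period hτ hσ hn hper hper' y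
  refine ⟨l, hl, hl8, ?_⟩
  -- `S (i + 2 l) = S i` for an even `i`
  have heven : ∃ j, S τ σ y (2 * j + 2 * l) = S τ σ y (2 * j) := by
    rcases Nat.even_or_odd' i with ⟨j, rfl | rfl⟩
    · exact ⟨j, h⟩
    · refine ⟨j + 1, ?_⟩
      have e1 : 2 * (j + 1) + 2 * l = (2 * j + 1 + 2 * l) + 1 := by ring
      have e2 : 2 * (j + 1) = (2 * j + 1) + 1 := by ring
      rw [e1, e2, S_odd τ σ y (k := 2 * j + 1 + 2 * l) (by omega), h,
        ← S_odd τ σ y (k := 2 * j + 1) (by omega)]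
  obtain ⟨j, hj⟩ := heven
  rw [← mul_add, S_perm, S_perm, pow_add, Equiv.Perm.mul_apply] at hj
  exact ((σ * τ) ^ j).injective hj

end Pool.Agent.Q24.CT
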